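import Pool.Agent.Lib.P0036f5v3.Run

/-!
# The lower bound `2 ^ Omega(n ^ 2)`
-/

set_option autoImplicit false

namespace Pool.Agent.P0036f5v3

open Relation Pool.Agent.P0036f5v2

/-- the pairs coding a Boolean function on the square -/
noncomputable def SX (m : ℕ) (X : Fin m × Fin m → Bool) : List (ℕ × ℕ) :=
  (Finset.univ : Finset (Fin m × Fin m)).toList.map fun p =>
    (p.1.1 + 1, if X p = true then p.2.1 + 1 else m + p.2.1 + 1)

theorem mem_SX {m : ℕ} {X : Fin m × Fin m → Bool} {t : ℕ × ℕ} :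
    t ∈ SX m X ↔ ∃ p : Fin m × Fin m,
      (p.1.1 + 1, if X p = true then p.2.1 + 1 else m + p.2.1 + 1) = t := by
  simp [SX]

theorem adm_SX (m : ℕ) (X : Fin m × Fin m → Bool) : Adm m (SX m X) := by
  intro t ht
  obtain ⟨⟨i, l⟩, rfl⟩ := mem_SX.1 ht
  have h1 := i.2
  have h2 := l.2
  refine ⟨by simp, by simp only; omega, ?_, ?_⟩
  · simp only; split_ifs <;> omega
  · simp only; split_ifs <;> omega

theorem SX_sub {m : ℕ} {X Y : Fin m × Fin m → Bool} (h : ∀ t ∈ SX m X, t ∈ SX m Y) : X = Y := by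
  funext ⟨i, l⟩
  obtain ⟨⟨i', l'⟩, h1⟩ := mem_SX.1 (h _ (mem_SX.2 ⟨(i, l), rfl⟩))
  simp only [Prod.mk.injEq] at h1
  obtain ⟨h2, h3⟩ := h1
  have hi : i' = i := Fin.ext (by omega)
  subst hi
  have hl := l.2
  have hl' := l'.2
  by_cases hX : X (i', l) = true
  · rw [if_pos hX] at h3
    by_cases hY : Y (i', l') = true
    · rw [if_pos hY] at h3
      have : l' = l := Fin.ext (by omega)
      subst this
      rw [hX, hY]
    · rw [if_neg hY] at h3
      omega
  · rw [if_neg hX] at h3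
    by_cases hY : Y (i', l') = true
    · rw [if_pos hY] at h3
      omega
    · rw [if_neg hY] at h3
      have : l' = l := Fin.ext (by omega)
      subst this
      rw [Bool.not_eq_true] at hX hY
      rw [hX, hY]

/-- the prefixes -/
noncomputable def fw (m : ℕ) (Z : Finset (Fin m × Fin m → Bool)) : List BL :=
  pre (Z.toList.map (SX m)) ++ [.s]

theorem mem_iff {m : ℕ} (hm : 1 ≤ m) (cv : Bool) (Z : Finset (Fin m × Fin m → Bool))
    (X : Fin m × Fin m → Bool) : fw m Z ++ tst (SX m X) ∈ (bm m).lang cv ↔ X ∈ Z := by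
  have hne : SX m X ≠ [] := by
    intro h
    have h1 : ((⟨0, hm⟩ : Fin m), (⟨0, hm⟩ : Fin m)) ∈
      (Finset.univ : Finset (Fin m × Fin m)).toList := by simp
    unfold SX at h
    rw [List.map_eq_nil_iff] at h
    rw [h] at h1
    simp at h1
  obtain ⟨p, P, hpP⟩ := List.exists_cons_of_ne_nil hne
  have hA := adm_SX m X
  rw [hpP] at hA
  have h := mem_lang (m := m) (cv := cv) (Z.toList.map (SX m)) (by
    intro S hS
    obtain ⟨Y, _, rfl⟩ := List.mem_map.1 hS
    exact adm_SX m Y) p P hA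
  rw [← hpP] at h
  rw [fw, h]
  constructor
  · rintro ⟨S, hS, hall⟩
    obtain ⟨Y, hY, rfl⟩ := List.mem_map.1 hS
    rw [SX_sub hall]
    exact Finset.mem_toList.1 hY
  · intro hX
    exact ⟨SX m X, List.mem_map.2 ⟨X, Finset.mem_toList.2 hX, rfl⟩, fun q hq => hq⟩

/-- Any deterministic 1-limited automaton for the language has size at least `2 ^ (m ^ 2 / 2)`. -/
theorem det_lower (m : ℕ) (hm : 1 ≤ m) (D : LA BL) (hD : D.toMach.Det) (cv : Bool)
    (hL : D.toMach.lang cv = (bm m).lang cv) : 2 ^ (m * m) ≤ D.toMach.size ^ 2 := by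
  have fQ := D.finQ
  have fW := D.finW
  have h := D.toMach.card_le_of_residuals cv hD
    (ι := Finset (Fin m × Fin m → Bool)) (fun Z => fw m Z) (by
      intro Y Z hne
      obtain ⟨X, hX⟩ : ∃ X, ¬ (X ∈ Y ↔ X ∈ Z) := by
        by_contra hcon
        push Not at hcon
        exact hne (Finset.ext hcon)
      refine ⟨tst (SX m X), ?_⟩
      rw [hL, mem_iff hm, mem_iff hm]
      exact hX)
  have hcard : Nat.card (Finset (Fin m × Fin m → Bool)) = 2 ^ 2 ^ (m * m) := by
    rw [Nat.card_eq_fintype_card, Fintype.card_finset, Fintype.card_fun, Fintype.card_prod,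
      Fintype.card_fin, Fintype.card_bool]
  rw [hcard] at h
  set k := Nat.card D.Q with hk
  have hsz : k + 1 ≤ D.toMach.size := by
    unfold Mach.size
    omega
  have h1 : 2 ^ (k * k) * k + 1 ≤ 2 ^ (k * k + k + 1) := by
    have h2 : k ≤ 2 ^ k := Nat.lt_two_pow_self.le
    have h3 : 2 ^ (k * k + k + 1) = 2 ^ (k * k) * 2 ^ k + 2 ^ (k * k) * 2 ^ k := by ring
    have h4 : 2 ^ (k * k) * k ≤ 2 ^ (k * k) * 2 ^ k := Nat.mul_le_mul_left _ h2
    have h5 : 1 ≤ 2 ^ (k * k) * 2 ^ k := Nat.mul_pos (by positivity) (by positivity)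
    omega
  have h6 : 2 ^ (m * m) ≤ k * k + k + 1 := (Nat.pow_le_pow_iff_right (by norm_num)).1 (h.trans h1)
  calc 2 ^ (m * m) ≤ k * k + k + 1 := h6
    _ ≤ (k + 1) ^ 2 := by nlinarith
    _ ≤ D.toMach.size ^ 2 := Nat.pow_le_pow_left hsz 2

/-! ### The size of the machine -/

/-- the states that can occur -/
def wst (m : ℕ) : Set BS :=
  ({.scan, .mark, .mid, .acc} ∪ (BS.cnt '' Set.Iic m ∪ BS.lft '' Set.Iic m)) ∪
    ((BS.skp '' Set.Iic m ∪ BS.dn '' Set.Iic m) ∪
      (BS.up '' Set.Iic (2 * m) ∪ BS.ret '' Set.Iic (2 * m)))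

theorem ws_scan (m : ℕ) : BS.scan ∈ wst m := by simp [wst]
theorem ws_mark (m : ℕ) : BS.mark ∈ wst m := by simp [wst]
theorem ws_mid (m : ℕ) : BS.mid ∈ wst m := by simp [wst]
theorem ws_acc (m : ℕ) : BS.acc ∈ wst m := by simp [wst]
theorem ws_cnt (m i : ℕ) : BS.cnt i ∈ wst m ↔ i ≤ m := by simp [wst]
theorem ws_lft (m i : ℕ) : BS.lft i ∈ wst m ↔ i ≤ m := by simp [wst]
theorem ws_skp (m i : ℕ) : BS.skp i ∈ wst m ↔ i ≤ m := by simp [wst]
theorem ws_dn (m i : ℕ) : BS.dn i ∈ wst m ↔ i ≤ m := by simp [wst]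
theorem ws_up (m i : ℕ) : BS.up i ∈ wst m ↔ i ≤ 2 * m := by simp [wst]
theorem ws_ret (m i : ℕ) : BS.ret i ∈ wst m ↔ i ≤ 2 * m := by simp [wst]

theorem wst_finite (m : ℕ) : (wst m).Finite := by
  unfold wst
  refine Set.Finite.union (Set.Finite.union (Set.toFinite _) (Set.Finite.union ?_ ?_))
    (Set.Finite.union (Set.Finite.union ?_ ?_) (Set.Finite.union ?_ ?_))
  all_goals exact (Set.finite_Iic _).image _

theorem wst_ncard (m : ℕ) : (wst m).ncard ≤ 8 * m + 10 := by
  have c : ∀ n : ℕ, (Set.Iic n).ncard = n + 1 := fun n => by simp [Set.ncard_eq_toFinset_card']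
  have i : ∀ (f : ℕ → BS) (n : ℕ), (f '' Set.Iic n).ncard ≤ n + 1 := fun f n =>
    (Set.ncard_image_le (Set.finite_Iic n)).trans (c n).le
  have i6 : ({.scan, .mark, .mid, .acc} : Set BS).ncard ≤ 4 := by
    refine (Set.ncard_insert_le _ _).trans ?_
    have := Set.ncard_insert_le BS.mark ({.mid, .acc} : Set BS)
    have := Set.ncard_insert_le BS.mid ({.acc} : Set BS)
    simp only [Set.ncard_singleton] at this
    omega
  have := i BS.cnt m
  have := i BS.lft m
  have := i BS.skp m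
  have := i BS.dn m
  have := i BS.up (2 * m)
  have := i BS.ret (2 * m)
  unfold wst
  refine (Set.ncard_union_le _ _).trans ?_
  have j1 := Set.ncard_union_le ({.scan, .mark, .mid, .acc} : Set BS)
    (BS.cnt '' Set.Iic m ∪ BS.lft '' Set.Iic m)
  have j2 := Set.ncard_union_le (BS.cnt '' Set.Iic m) (BS.lft '' Set.Iic m)
  have j3 := Set.ncard_union_le (BS.skp '' Set.Iic m ∪ BS.dn '' Set.Iic m)
    (BS.up '' Set.Iic (2 * m) ∪ BS.ret '' Set.Iic (2 * m))
  have j4 := Set.ncard_union_le (BS.skp '' Set.Iic m) (BS.dn '' Set.Iic m)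
  have j5 := Set.ncard_union_le (BS.up '' Set.Iic (2 * m)) (BS.ret '' Set.Iic (2 * m))
  omega

theorem wst_closed (m : ℕ) (hm : 1 ≤ m) : ∀ q ∈ wst m, ∀ s, ∀ x ∈ (bm m).δ q s, x.1 ∈ wst m := by
  intro q hq s x hx
  have hx' : tr1 m q s = some x ∨ tr2 q s = some x := hx
  clear hx
  rcases q with _ | _ | _ | _ | i | i | i | i | i | i <;> rcases s with (_ | _ | _ | _ | _) | _ | _ | _ <;>
    simp only [tr1, tr2, ws_cnt, ws_lft, ws_skp, ws_dn, ws_up, ws_ret, reduceCtorEq,
      or_false, or_self, Option.some.injEq] at hx' hq <;>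
    (try split_ifs at hx') <;>
    (try simp only [Option.some.injEq] at hx') <;>
    (try (rcases hx' with hx' | hx')) <;>
    (try subst hx') <;>
    (try simp only [ws_scan, ws_mark, ws_mid, ws_acc, ws_cnt, ws_lft, ws_skp, ws_dn, ws_up,
      ws_ret]) <;>
    (try omega)

theorem card_BL : Nat.card BL = 5 := by
  let e : BL ≃ Fin 5 :=
    { toFun := fun g => match g with | .a => 0 | .b => 1 | .s => 2 | .x => 3 | .y => 4
      invFun := fun i => match i with | 0 => .a | 1 => .b | 2 => .s | 3 => .x | 4 => .y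
      left_inv := by intro g; cases g <;> rfl
      right_inv := by intro i; fin_cases i <;> rfl }
  rw [Nat.card_congr e, Nat.card_fin]

theorem finite_BL : Finite BL := Nat.finite_of_card_ne_zero (by rw [card_BL]; norm_num)

/-- A machine of linear size for the witness language. -/
theorem exists_small (m : ℕ) (hm : 1 ≤ m) :
    ∃ M : LA BL, (∀ cv, M.toMach.lang cv = (bm m).lang cv) ∧ M.toMach.size ≤ 1500 * m := by
  have hI : (bm m).qI ∈ wst m := ws_scan m
  let M' : Mach BL := (bm m).restrict (wst m) hI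
  have fQ : Finite M'.Q := (wst_finite m).to_subtype
  have fW : Finite M'.W := inferInstanceAs (Finite Unit)
  have fB := finite_BL
  refine ⟨⟨M', fQ, fW⟩, ?_, ?_⟩
  · intro cv
    exact Mach.restrict_lang _ cv _ hI (wst_closed m hm)
  · show M'.size ≤ _
    have hA : Nat.card BL = 5 := card_BL
    have hS : Nat.card (Sym BL M'.W) = 8 := by
      have : Nat.card (Sym BL Unit) = 8 := by
        rw [card_sym, card_BL]; simp
      exact this
    have hQ : Nat.card M'.Q = (wst m).ncard := rfl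
    have hF : M'.F.ncard ≤ Nat.card M'.Q := Set.ncard_le_card M'.F
    have fS : Finite (Sym BL M'.W) := Nat.finite_of_card_ne_zero (by rw [hS]; norm_num)
    have hT : Nat.card {t : (M'.Q × Sym BL M'.W) ×
        (M'.Q × (BL ⊕ M'.W) × Bool) // t.2 ∈ M'.δ t.1.1 t.1.2} ≤
        Nat.card ((M'.Q × Sym BL M'.W) × Bool) := by
      classical
      refine Nat.card_le_card_of_injective
        (fun t => (t.1.1, decide (tr1 m t.1.1.1.1 t.1.1.2 = some (t.1.2.1.1, t.1.2.2)))) ?_
      rintro ⟨⟨⟨q, s⟩, ⟨r, y⟩⟩, h⟩ ⟨⟨⟨q', s'⟩, ⟨r', y'⟩⟩, h'⟩ heq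
      simp only [Prod.mk.injEq] at heq
      obtain ⟨⟨rfl, rfl⟩, hd⟩ := heq
      have h1 : tr1 m q.1 s = some (r.1, y) ∨ tr2 q.1 s = some (r.1, y) := h
      have h2 : tr1 m q.1 s = some (r'.1, y') ∨ tr2 q.1 s = some (r'.1, y') := h'
      have h3 : (tr1 m q.1 s = some (r.1, y)) ↔ (tr1 m q.1 s = some (r'.1, y')) := by
        simpa using hd
      have h4 : (r.1, y) = (r'.1, y') := by
        by_cases hc : tr1 m q.1 s = some (r.1, y)
        · have := h3.1 hc
          rw [hc] at this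
          exact Option.some.inj this
        · have hc' : ¬ tr1 m q.1 s = some (r'.1, y') := fun h => hc (h3.2 h)
          have a1 := h1.resolve_left hc
          have a2 := h2.resolve_left hc'
          rw [a1] at a2
          exact Option.some.inj a2
      have h5 : r = r' := Subtype.ext (congrArg Prod.fst h4)
      have h6 : y = y' := congrArg Prod.snd h4
      subst h5 h6
      rfl
    rw [Nat.card_prod, Nat.card_prod, hS] at hT
    have hB : Nat.card Bool = 2 := by simp
    rw [hB] at hT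
    have hK := wst_ncard m
    unfold Mach.size
    rw [hA, hS]
    rw [hQ] at hT hF ⊢
    omega

/-! ### The final statement -/

theorem main (cv : Bool) (n : ℕ) (hn : 4 ≤ n) :
    ∃ d, IsGreatest (costs cv n) d ∧ 2 ^ ((n / 3000) ^ 2) ≤ d ∧ d ≤ 2 ^ (n ^ 4) := by
  obtain ⟨d, hd, h1, h2⟩ := P0036f5v2.main cv n hn
  refine ⟨d, hd, ?_, h2⟩
  rcases Nat.lt_or_ge n 3000 with hlt | hge
  · rw [Nat.div_eq_of_lt hlt]
    have : 1 ≤ d := le_trans (Nat.one_le_two_pow) h1
    simpa using this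
  · have hm : 1 ≤ n / 1500 := by omega
    obtain ⟨M, hL, hsz⟩ := exists_small (n / 1500) hm
    have fB := finite_BL
    obtain ⟨s, hs, D, hD, hL', hsize⟩ := exists_cost M cv (n := n) (by omega)
    have h3 := det_lower (n / 1500) hm D hD cv (by rw [hL', hL cv])
    rw [hsize] at h3
    refine le_trans ?_ (hd.2 hs)
    have h4 : (2 ^ ((n / 3000) ^ 2)) ^ 2 ≤ s ^ 2 := by
      rw [← pow_mul]
      refine le_trans (Nat.pow_le_pow_right (by norm_num) ?_) h3
      have h5 : 2 * (n / 3000) ≤ n / 1500 := by omega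
      calc (n / 3000) ^ 2 * 2 ≤ (n / 3000) ^ 2 * 4 := Nat.mul_le_mul_left _ (by norm_num)
        _ = (2 * (n / 3000)) * (2 * (n / 3000)) := by ring
        _ ≤ n / 1500 * (n / 1500) := Nat.mul_le_mul h5 h5
    exact (Nat.pow_le_pow_iff_left (by norm_num)).1 h4

end Pool.Agent.P0036f5v3
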