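import Pool.Agent.Lib.P0036f5v3.Wit

/-!
# Runs of the machine on the witness words
-/

set_option autoImplicit false

namespace Pool.Agent.P0036f5v3

open Relation Pool.Agent.P0036f5v2

variable {m : ℕ} {cv : Bool}

/-- states of the table automaton -/
abbrev St := Set (BS × BS) × BS

/-- reachability in the table automaton -/
def Rch (m : ℕ) (cv : Bool) : List BL → St → St → Prop
  | [], s, s' => s' = s
  | g :: w, s, s' => ∃ t : St, t ∈ ((bm m).toNFA cv).step s g ∧ Rch m cv w t s'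

theorem rch_append (u v : List BL) (s s' : St) :
    Rch m cv (u ++ v) s s' ↔ ∃ t, Rch m cv u s t ∧ Rch m cv v t s' := by
  induction u generalizing s with
  | nil => simp [Rch]
  | cons g u ih =>
    simp only [List.cons_append, Rch]
    constructor
    · rintro ⟨t, h1, h2⟩
      obtain ⟨r, h3, h4⟩ := (ih t).1 h2
      exact ⟨r, ⟨t, h1, h3⟩, h4⟩
    · rintro ⟨r, ⟨t, h1, h3⟩, h4⟩
      exact ⟨t, h1, (ih t).2 ⟨r, h3, h4⟩⟩

theorem mem_evalFrom (w : List BL) (S : Set St) (s' : St) :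
    s' ∈ ((bm m).toNFA cv).evalFrom S w ↔ ∃ s ∈ S, Rch m cv w s s' := by
  induction w generalizing S with
  | nil => simp [Rch]
  | cons g w ih =>
    rw [NFA.evalFrom_cons, ih]
    constructor
    · rintro ⟨t, ht, h⟩
      rw [NFA.mem_stepSet] at ht
      obtain ⟨s, hs, hst⟩ := ht
      exact ⟨s, hs, t, hst, h⟩
    · rintro ⟨s, hs, t, hst, h⟩
      exact ⟨t, by rw [NFA.mem_stepSet]; exact ⟨s, hs, hst⟩, h⟩

/-- the table after one more blank cell -/
abbrev bl (m : ℕ) (cv : Bool) (T : Set (BS × BS)) : Set (BS × BS) := (bm m).upd cv T (.wrk ())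

theorem mem_step {T : Set (BS × BS)} {q : BS} {g : BL} {t : St} :
    t ∈ ((bm m).toNFA cv).step (T, q) g ↔ ∃ (q₁ : BS) (x : BL ⊕ Unit) (d : Bool),
      (tr1 m q (.inp g) = some (q₁, x, d) ∨ tr2 q (.inp g) = some (q₁, x, d)) ∧
      t.1 = (bm m).upd cv T (Sym.ofW x) ∧
      ((d = true ∧ t.2 = q₁) ∨ (d = false ∧ ∃ p, (q₁, p) ∈ T ∧ (p, t.2) ∈ t.1)) := Iff.rfl

theorem step_scan {T : Set (BS × BS)} {g : BL} {t : St} (hg : g = .a ∨ g = .b) :
    t ∈ ((bm m).toNFA cv).step (T, .scan) g ↔ t = (bl m cv T, .scan) := by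
  rw [mem_step]
  constructor
  · rintro ⟨q₁, x, d, h1, h2, h3⟩
    rcases hg with rfl | rfl <;>
      simp only [tr1, tr2, Option.some.injEq, Prod.mk.injEq, reduceCtorEq, or_false] at h1 <;>
      obtain ⟨rfl, rfl, rfl⟩ := h1 <;>
      rcases h3 with ⟨_, h3⟩ | ⟨h3, _⟩ <;> first
        | exact Prod.ext h2 h3
        | simp at h3
  · rintro rfl
    rcases hg with rfl | rfl <;> exact ⟨.scan, .inr (), true, Or.inl rfl, rfl, Or.inl ⟨rfl, rfl⟩⟩

theorem step_scan_s {T : Set (BS × BS)} {t : St} :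
    t ∈ ((bm m).toNFA cv).step (T, .scan) .s ↔
      t = (bl m cv T, .scan) ∨ t = (bl m cv T, .mark) := by
  rw [mem_step]
  constructor
  · rintro ⟨q₁, x, d, h1, h2, h3⟩
    simp only [tr1, tr2, Option.some.injEq, Prod.mk.injEq] at h1
    rcases h1 with ⟨rfl, rfl, rfl⟩ | ⟨rfl, rfl, rfl⟩
    · rcases h3 with ⟨_, h3⟩ | ⟨h3, _⟩
      · exact Or.inl (Prod.ext h2 h3)
      · simp at h3
    · rcases h3 with ⟨_, h3⟩ | ⟨h3, _⟩
      · exact Or.inr (Prod.ext h2 h3)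
      · simp at h3
  · rintro (rfl | rfl)
    · exact ⟨.scan, .inr (), true, Or.inl rfl, rfl, Or.inl ⟨rfl, rfl⟩⟩
    · exact ⟨.mark, .inr (), true, Or.inr rfl, rfl, Or.inl ⟨rfl, rfl⟩⟩

theorem step_scan_x {T : Set (BS × BS)} {t : St} :
    ¬ t ∈ ((bm m).toNFA cv).step (T, .scan) .x := by
  rw [mem_step]
  rintro ⟨q₁, x, d, h1, h2, h3⟩
  simp [tr1, tr2] at h1

theorem step_mark {T : Set (BS × BS)} {g : BL} {t : St} (hg : g = .a ∨ g = .b) :
    t ∈ ((bm m).toNFA cv).step (T, .mark) g ↔ t = ((bm m).upd cv T (.inp g), .mark) := by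
  rw [mem_step]
  constructor
  · rintro ⟨q₁, x, d, h1, h2, h3⟩
    rcases hg with rfl | rfl <;>
      simp only [tr1, tr2, Option.some.injEq, Prod.mk.injEq, reduceCtorEq, or_false] at h1 <;>
      obtain ⟨rfl, rfl, rfl⟩ := h1 <;>
      rcases h3 with ⟨_, h3⟩ | ⟨h3, _⟩ <;> first
        | exact Prod.ext h2 h3
        | simp at h3
  · rintro rfl
    rcases hg with rfl | rfl
    · exact ⟨.mark, .inl .a, true, Or.inl rfl, rfl, Or.inl ⟨rfl, rfl⟩⟩
    · exact ⟨.mark, .inl .b, true, Or.inl rfl, rfl, Or.inl ⟨rfl, rfl⟩⟩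

theorem step_mark_s {T : Set (BS × BS)} {t : St} :
    t ∈ ((bm m).toNFA cv).step (T, .mark) .s ↔ t = (bl m cv T, .mid) := by
  rw [mem_step]
  constructor
  · rintro ⟨q₁, x, d, h1, h2, h3⟩
    simp only [tr1, tr2, Option.some.injEq, Prod.mk.injEq, reduceCtorEq, or_false] at h1
    obtain ⟨rfl, rfl, rfl⟩ := h1
    rcases h3 with ⟨_, h3⟩ | ⟨h3, _⟩
    · exact Prod.ext h2 h3
    · simp at h3
  · rintro rfl
    exact ⟨.mid, .inr (), true, Or.inl rfl, rfl, Or.inl ⟨rfl, rfl⟩⟩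

theorem step_mark_x {T : Set (BS × BS)} {t : St} :
    ¬ t ∈ ((bm m).toNFA cv).step (T, .mark) .x := by
  rw [mem_step]
  rintro ⟨q₁, x, d, h1, h2, h3⟩
  simp [tr1, tr2] at h1

theorem step_mid {T : Set (BS × BS)} {g : BL} {t : St} (hg : g = .a ∨ g = .b ∨ g = .s) :
    t ∈ ((bm m).toNFA cv).step (T, .mid) g ↔ t = (bl m cv T, .mid) := by
  rw [mem_step]
  constructor
  · rintro ⟨q₁, x, d, h1, h2, h3⟩
    rcases hg with rfl | rfl | rfl <;>
      simp only [tr1, tr2, Option.some.injEq, Prod.mk.injEq, reduceCtorEq, or_false] at h1 <;>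
      obtain ⟨rfl, rfl, rfl⟩ := h1 <;>
      rcases h3 with ⟨_, h3⟩ | ⟨h3, _⟩ <;> first
        | exact Prod.ext h2 h3
        | simp at h3
  · rintro rfl
    rcases hg with rfl | rfl | rfl <;>
      exact ⟨.mid, .inr (), true, Or.inl rfl, rfl, Or.inl ⟨rfl, rfl⟩⟩

theorem step_mid_x {T : Set (BS × BS)} {t : St} :
    t ∈ ((bm m).toNFA cv).step (T, .mid) .x ↔ t = (bl m cv T, .cnt 1) := by
  rw [mem_step]
  constructor
  · rintro ⟨q₁, x, d, h1, h2, h3⟩
    simp only [tr1, tr2, Option.some.injEq, Prod.mk.injEq, reduceCtorEq, or_false] at h1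
    obtain ⟨rfl, rfl, rfl⟩ := h1
    rcases h3 with ⟨_, h3⟩ | ⟨h3, _⟩
    · exact Prod.ext h2 h3
    · simp at h3
  · rintro rfl
    exact ⟨.cnt 1, .inr (), true, Or.inl rfl, rfl, Or.inl ⟨rfl, rfl⟩⟩

theorem step_cnt_x {T : Set (BS × BS)} {t : St} {j : ℕ} :
    t ∈ ((bm m).toNFA cv).step (T, .cnt j) .x ↔ j < m ∧ t = (bl m cv T, .cnt (j + 1)) := by
  rw [mem_step]
  constructor
  · rintro ⟨q₁, x, d, h1, h2, h3⟩
    simp only [tr1, tr2, reduceCtorEq, or_false] at h1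
    split_ifs at h1 with h0
    simp only [Option.some.injEq, Prod.mk.injEq] at h1
    obtain ⟨rfl, rfl, rfl⟩ := h1
    rcases h3 with ⟨_, h3⟩ | ⟨h3, _⟩
    · exact ⟨h0, Prod.ext h2 h3⟩
    · simp at h3
  · rintro ⟨h0, rfl⟩
    exact ⟨.cnt (j + 1), .inr (), true, Or.inl (by simp [tr1, h0]), rfl, Or.inl ⟨rfl, rfl⟩⟩

theorem step_cnt_y {T : Set (BS × BS)} (hT : Inv T) {t : St} {j : ℕ} :
    t ∈ ((bm m).toNFA cv).step (T, .cnt j) .y ↔
      ∃ k, (BS.lft j, BS.ret k) ∈ T ∧ t = (bl m cv T, .ret k) := by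
  rw [mem_step]
  constructor
  · rintro ⟨q₁, x, d, h1, h2, h3⟩
    simp only [tr1, tr2, Option.some.injEq, Prod.mk.injEq, reduceCtorEq, or_false] at h1
    obtain ⟨rfl, rfl, rfl⟩ := h1
    rcases h3 with ⟨h3, _⟩ | ⟨_, p, h3, h4⟩
    · simp at h3
    · obtain ⟨k, rfl⟩ := hT _ _ isL_lft h3
      refine ⟨k, h3, Prod.ext h2 ?_⟩
      rw [h2] at h4
      exact (ret_upd (Or.inl rfl)).1 h4
  · rintro ⟨k, h3, rfl⟩
    exact ⟨.lft j, .inr (), false, Or.inl rfl, rfl,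
      Or.inr ⟨rfl, .ret k, h3, (ret_upd (Or.inl rfl)).2 rfl⟩⟩

theorem step_ret_y {T : Set (BS × BS)} {t : St} {k : ℕ} :
    t ∈ ((bm m).toNFA cv).step (T, .ret k) .y ↔ 1 < k ∧ t = (bl m cv T, .ret (k - 1)) := by
  rw [mem_step]
  constructor
  · rintro ⟨q₁, x, d, h1, h2, h3⟩
    simp only [tr1, tr2, reduceCtorEq, or_false] at h1
    split_ifs at h1 with h0
    simp only [Option.some.injEq, Prod.mk.injEq] at h1
    obtain ⟨rfl, rfl, rfl⟩ := h1
    rcases h3 with ⟨_, h3⟩ | ⟨h3, _⟩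
    · exact ⟨by omega, Prod.ext h2 h3⟩
    · simp at h3
  · rintro ⟨h0, rfl⟩
    have h0' : ¬ k ≤ 1 := by omega
    exact ⟨.ret (k - 1), .inr (), true, Or.inl (by simp [tr1, h0']), rfl, Or.inl ⟨rfl, rfl⟩⟩

theorem step_ret_x {T : Set (BS × BS)} {t : St} {k : ℕ} :
    t ∈ ((bm m).toNFA cv).step (T, .ret k) .x ↔ k = 1 ∧ t = (bl m cv T, .cnt 1) := by
  rw [mem_step]
  constructor
  · rintro ⟨q₁, x, d, h1, h2, h3⟩
    simp only [tr1, tr2, reduceCtorEq, or_false] at h1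
    split_ifs at h1 with h0
    simp only [Option.some.injEq, Prod.mk.injEq] at h1
    obtain ⟨rfl, rfl, rfl⟩ := h1
    rcases h3 with ⟨_, h3⟩ | ⟨h3, _⟩
    · exact ⟨h0, Prod.ext h2 h3⟩
    · simp at h3
  · rintro ⟨rfl, rfl⟩
    exact ⟨.cnt 1, .inr (), true, Or.inl rfl, rfl, Or.inl ⟨rfl, rfl⟩⟩

theorem acc_ret {T : Set (BS × BS)} {k : ℕ} :
    ((T, .ret k) : St) ∈ ((bm m).toNFA cv).accept ↔ k = 1 := by
  constructor
  · rintro ⟨f, hf, r, hch, x, hx, _⟩
    have hf' : f = BS.acc := hf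
    subst hf'
    simp only at hch hx
    rcases hch.cases_head with h | ⟨c, ⟨p', ⟨x', hx', _⟩, _⟩, _⟩
    · subst h
      rw [mem_δ] at hx
      simp only [tr1, tr2, reduceCtorEq, or_false] at hx
      split_ifs at hx with h0
      exact h0
    · rw [mem_δ] at hx'
      simp only [tr1, tr2, reduceCtorEq, or_false] at hx'
      split_ifs at hx' with h0
      simp at hx'
  · rintro rfl
    exact ⟨.acc, rfl, .ret 1, ReflTransGen.refl, .inr (), Or.inl rfl,
      fun _ _ h => absurd rfl h⟩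

/-- the table codes the list of pairs `S` -/
def GT (S : List (ℕ × ℕ)) (T : Set (BS × BS)) : Prop :=
  Inv T ∧ ∀ j k, 1 ≤ j → ((BS.lft j, BS.ret k) ∈ T ↔ (j, k) ∈ S)

theorem GT.bl {S : List (ℕ × ℕ)} {T : Set (BS × BS)} (h : GT S T) : GT S (bl m cv T) :=
  ⟨inv_upd h.1 (Or.inl rfl), fun j k hj => by rw [blank_lft h.1]; exact h.2 j k hj⟩

theorem GT.enc {S : List (ℕ × ℕ)} (hS : Adm m S) {T : Set (BS × BS)} (h : GT [] T) :
    GT S (kp m cv (P0036f5v3.bl m cv T) (P0036f5v3.enc S)) := by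
  have h1 : GT [] (P0036f5v3.bl m cv T) := h.bl
  obtain ⟨h2, h3⟩ := kp_enc (m := m) (cv := cv) S h1.1 (fun c k => blank_up h.1) hS
  refine ⟨h2, fun j k hj => ?_⟩
  rw [h3 j k hj, h1.2 j k hj]
  simp

theorem enc_ab (S : List (ℕ × ℕ)) : ∀ g ∈ enc S, g = .a ∨ g = .b := by
  induction S with
  | nil => simp [P0036f5v3.enc]
  | cons t S ih =>
    obtain ⟨j, k⟩ := t
    intro g hg
    simp only [P0036f5v3.enc, List.mem_append, List.mem_replicate] at hg
    rcases hg with (hg | hg) | hg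
    · exact Or.inr hg.2
    · exact Or.inl hg.2
    · exact ih g hg

theorem rch_scan (w : List BL) (hw : ∀ g ∈ w, g = .a ∨ g = .b) (T : Set (BS × BS)) :
    (∀ t, Rch m cv w (T, .scan) t → t.2 = .scan ∧ ∀ S, GT S T → GT S t.1) ∧
      ∃ t, Rch m cv w (T, .scan) t := by
  induction w generalizing T with
  | nil => exact ⟨fun t ht => by rw [show t = (T, BS.scan) from ht]; exact ⟨rfl, fun S h => h⟩,
      ⟨_, rfl⟩⟩
  | cons g w ih =>
    obtain ⟨h1, t, h2⟩ := ih (fun g hg => hw g (List.mem_cons_of_mem _ hg)) (bl m cv T)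
    refine ⟨?_, ⟨t, (bl m cv T, .scan), (step_scan (hw g (by simp))).2 rfl, h2⟩⟩
    rintro t ⟨r, hr, ht⟩
    rw [step_scan (hw g (by simp))] at hr
    subst hr
    exact ⟨(h1 t ht).1, fun S hS => (h1 t ht).2 S hS.bl⟩

theorem rch_mid (w : List BL) (hw : ∀ g ∈ w, g = .a ∨ g = .b) (T : Set (BS × BS)) :
    (∀ t, Rch m cv w (T, .mid) t → t.2 = .mid ∧ ∀ S, GT S T → GT S t.1) ∧
      ∃ t, Rch m cv w (T, .mid) t := by
  induction w generalizing T with
  | nil => exact ⟨fun t ht => by rw [show t = (T, BS.mid) from ht]; exact ⟨rfl, fun S h => h⟩,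
      ⟨_, rfl⟩⟩
  | cons g w ih =>
    have hg : g = .a ∨ g = .b ∨ g = .s := by
      rcases hw g (by simp) with h | h
      · exact Or.inl h
      · exact Or.inr (Or.inl h)
    obtain ⟨h1, t, h2⟩ := ih (fun g hg => hw g (List.mem_cons_of_mem _ hg)) (bl m cv T)
    refine ⟨?_, ⟨t, (bl m cv T, .mid), (step_mid hg).2 rfl, h2⟩⟩
    rintro t ⟨r, hr, ht⟩
    rw [step_mid hg] at hr
    subst hr
    exact ⟨(h1 t ht).1, fun S hS => (h1 t ht).2 S hS.bl⟩

theorem rch_mark (w : List BL) (hw : ∀ g ∈ w, g = .a ∨ g = .b) (T : Set (BS × BS)) (t : St) :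
    Rch m cv w (T, .mark) t ↔ t = (kp m cv T w, .mark) := by
  induction w generalizing T with
  | nil => exact Iff.rfl
  | cons g w ih =>
    have h1 := ih (fun g hg => hw g (List.mem_cons_of_mem _ hg)) ((bm m).upd cv T (.inp g))
    constructor
    · rintro ⟨r, hr, ht⟩
      rw [step_mark (hw g (by simp))] at hr
      subst hr
      exact h1.1 ht
    · intro h
      exact ⟨_, (step_mark (hw g (by simp))).2 rfl, h1.2 h⟩

/-- the prefix of the witness words -/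
def pre : List (List (ℕ × ℕ)) → List BL
  | [] => []
  | S :: L => pre L ++ (.s :: enc S)

theorem pre_spec (L : List (List (ℕ × ℕ))) (hL : ∀ S ∈ L, Adm m S) :
    (∀ t, Rch m cv (pre L) ((bm m).T0 cv, .scan) t →
      (t.2 = .scan ∧ GT [] t.1) ∨ ((t.2 = .mark ∨ t.2 = .mid) ∧ ∃ S ∈ L, GT S t.1)) ∧
    (∃ t, Rch m cv (pre L) ((bm m).T0 cv, .scan) t ∧ t.2 = .scan ∧ GT [] t.1) ∧
    (∀ S ∈ L, ∃ t, Rch m cv (pre L) ((bm m).T0 cv, .scan) t ∧ (t.2 = .mark ∨ t.2 = .mid) ∧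
      GT S t.1) := by
  induction L with
  | nil =>
    have h0 : GT [] ((bm m).T0 cv) := by
      have : ∀ p, p ∉ (bm m).T0 cv := by
        rintro ⟨p, q⟩ ⟨x, hx, _⟩
        rw [mem_δ] at hx
        cases p <;> simp [tr1, tr2] at hx
      exact ⟨fun p r _ h => absurd h (this _), fun j k _ => ⟨fun h => absurd h (this _),
        fun h => by simp at h⟩⟩
    refine ⟨fun t ht => ?_, ⟨_, rfl, rfl, h0⟩, by simp⟩
    rw [show t = ((bm m).T0 cv, BS.scan) from ht]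
    exact Or.inl ⟨rfl, h0⟩
  | cons S L ih =>
    obtain ⟨h1, ⟨t0, ht0, hs0, hg0⟩, h3⟩ := ih (fun S hS => hL S (List.mem_cons_of_mem _ hS))
    have hab := enc_ab S
    have hAS : Adm m S := hL S (by simp)
    obtain ⟨T0', q0⟩ := t0
    simp only at hs0 hg0
    subst hs0
    refine ⟨?_, ?_, ?_⟩
    · intro t ht
      rw [pre, rch_append] at ht
      obtain ⟨⟨T, q⟩, hr, r', hr', ht'⟩ := ht
      rcases h1 _ hr with ⟨hq, hG⟩ | ⟨hq, S', hS', hG⟩
      · simp only at hq hG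
        subst hq
        rw [step_scan_s] at hr'
        rcases hr' with rfl | rfl
        · obtain ⟨h4, h5⟩ := (rch_scan _ hab _).1 t ht'
          exact Or.inl ⟨h4, h5 [] hG.bl⟩
        · rw [rch_mark _ hab] at ht'
          subst ht'
          exact Or.inr ⟨Or.inl rfl, S, by simp, hG.enc hAS⟩
      · simp only at hq hG
        rcases hq with rfl | rfl
        · rw [step_mark_s] at hr'
          subst hr'
          obtain ⟨h4, h5⟩ := (rch_mid _ hab _).1 t ht'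
          exact Or.inr ⟨Or.inr h4, S', List.mem_cons_of_mem _ hS', h5 S' hG.bl⟩
        · rw [step_mid (Or.inr (Or.inr rfl))] at hr'
          subst hr'
          obtain ⟨h4, h5⟩ := (rch_mid _ hab _).1 t ht'
          exact Or.inr ⟨Or.inr h4, S', List.mem_cons_of_mem _ hS', h5 S' hG.bl⟩
    · obtain ⟨h4, t, h5⟩ := rch_scan (m := m) (cv := cv) _ hab (bl m cv T0')
      refine ⟨t, ?_, (h4 t h5).1, (h4 t h5).2 [] hg0.bl⟩
      rw [pre, rch_append]
      exact ⟨_, ht0, _, step_scan_s.2 (Or.inl rfl), h5⟩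
    · intro S' hS'
      rcases List.mem_cons.1 hS' with rfl | hS'
      · refine ⟨(kp m cv (bl m cv T0') (enc S'), .mark), ?_, Or.inl rfl, hg0.enc hAS⟩
        rw [pre, rch_append]
        exact ⟨_, ht0, _, step_scan_s.2 (Or.inr rfl), (rch_mark _ hab _ _).2 rfl⟩
      · obtain ⟨⟨T, q⟩, hr, hq, hG⟩ := h3 S' hS'
        simp only at hq hG
        obtain ⟨h4, t, h5⟩ := rch_mid (m := m) (cv := cv) _ hab (bl m cv T)
        refine ⟨t, ?_, Or.inr (h4 t h5).1, (h4 t h5).2 S' hG.bl⟩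
        rw [pre, rch_append]
        rcases hq with rfl | rfl
        · exact ⟨_, hr, _, step_mark_s.2 rfl, h5⟩
        · exact ⟨_, hr, _, (step_mid (Or.inr (Or.inr rfl))).2 rfl, h5⟩

/-- the suffix of the witness words -/
def tst : List (ℕ × ℕ) → List BL
  | [] => []
  | (j, k) :: L => List.replicate j .x ++ (List.replicate k .y ++ tst L)

theorem rch_x (i : ℕ) : ∀ (T : Set (BS × BS)) (c : ℕ) (S : List (ℕ × ℕ)), GT S T →
    (∀ t, Rch m cv (List.replicate i .x) (T, .cnt c) t → t.2 = .cnt (c + i) ∧ GT S t.1) ∧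
    (c + i ≤ m → ∃ t, Rch m cv (List.replicate i .x) (T, .cnt c) t) := by
  induction i with
  | zero =>
    intro T c S hG
    exact ⟨fun t ht => by rw [show t = (T, BS.cnt c) from ht]; exact ⟨rfl, hG⟩,
      fun _ => ⟨_, rfl⟩⟩
  | succ i ih =>
    intro T c S hG
    obtain ⟨h1, h2⟩ := ih (bl m cv T) (c + 1) S hG.bl
    refine ⟨?_, ?_⟩
    · intro t ht
      rw [List.replicate_succ] at ht
      obtain ⟨r, hr, ht⟩ := ht
      rw [step_cnt_x] at hr
      obtain ⟨_, rfl⟩ := hr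
      obtain ⟨h3, h4⟩ := h1 t ht
      exact ⟨by rw [h3]; congr 1; omega, h4⟩
    · intro h
      obtain ⟨t, ht⟩ := h2 (by omega)
      refine ⟨t, ?_⟩
      rw [List.replicate_succ]
      exact ⟨_, step_cnt_x.2 ⟨by omega, rfl⟩, ht⟩

theorem rch_y (i : ℕ) : ∀ (T : Set (BS × BS)) (c : ℕ) (S : List (ℕ × ℕ)), GT S T → 1 ≤ c →
    (∀ t, Rch m cv (List.replicate i .y) (T, .ret c) t →
      i < c ∧ t.2 = .ret (c - i) ∧ GT S t.1) ∧
    (i < c → ∃ t, Rch m cv (List.replicate i .y) (T, .ret c) t) := by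
  induction i with
  | zero =>
    intro T c S hG hc
    exact ⟨fun t ht => by rw [show t = (T, BS.ret c) from ht]; exact ⟨by omega, rfl, hG⟩,
      fun _ => ⟨_, rfl⟩⟩
  | succ i ih =>
    intro T c S hG hc
    refine ⟨?_, ?_⟩
    · intro t ht
      rw [List.replicate_succ] at ht
      obtain ⟨r, hr, ht⟩ := ht
      rw [step_ret_y] at hr
      obtain ⟨h0, rfl⟩ := hr
      obtain ⟨h1, h2⟩ := ih (bl m cv T) (c - 1) S hG.bl (by omega)
      obtain ⟨h3, h4, h5⟩ := h1 t ht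
      exact ⟨by omega, by rw [h4]; congr 1; omega, h5⟩
    · intro h
      obtain ⟨h1, h2⟩ := ih (bl m cv T) (c - 1) S hG.bl (by omega)
      obtain ⟨t, ht⟩ := h2 (by omega)
      refine ⟨t, ?_⟩
      rw [List.replicate_succ]
      exact ⟨_, step_ret_y.2 ⟨by omega, rfl⟩, ht⟩

theorem tst_sound {S : List (ℕ × ℕ)} (hSk : ∀ p ∈ S, 1 ≤ p.2) (L : List (ℕ × ℕ)) :
    (∀ p ∈ L, 1 ≤ p.1 ∧ 1 ≤ p.2) → ∀ (r : ℕ) (T : Set (BS × BS)) (t : St), GT S T →
      Rch m cv (tst L) (T, .ret r) t → t ∈ ((bm m).toNFA cv).accept →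
      r = 1 ∧ ∀ p ∈ L, p ∈ S := by
  induction L with
  | nil =>
    intro _ r T t _ ht ha
    rw [show t = (T, BS.ret r) from ht] at ha
    exact ⟨acc_ret.1 ha, by simp⟩
  | cons p L ih =>
    obtain ⟨j, k⟩ := p
    intro hp r T t hG ht ha
    have hjk := hp (j, k) (by simp)
    simp only at hjk
    obtain ⟨j, rfl⟩ : ∃ j', j = j' + 1 := ⟨j - 1, by omega⟩
    obtain ⟨k, rfl⟩ : ∃ k', k = k' + 1 := ⟨k - 1, by omega⟩
    rw [tst, List.replicate_succ, List.cons_append] at ht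
    obtain ⟨r1, hr1, ht⟩ := ht
    rw [step_ret_x] at hr1
    obtain ⟨rfl, rfl⟩ := hr1
    rw [rch_append] at ht
    obtain ⟨⟨T2, q2⟩, h2, ht⟩ := ht
    obtain ⟨h3, h4⟩ := (rch_x j _ 1 S hG.bl).1 _ h2
    simp only at h3 h4
    subst h3
    rw [List.replicate_succ, List.cons_append] at ht
    obtain ⟨r5, hr5, ht⟩ := ht
    rw [step_cnt_y h4.1] at hr5
    obtain ⟨k', hk', rfl⟩ := hr5
    have hmem := (h4.2 _ _ (by omega)).1 hk'
    have hk1 := hSk _ hmem
    simp only at hk1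
    rw [rch_append] at ht
    obtain ⟨⟨T6, q6⟩, h6, ht⟩ := ht
    obtain ⟨h7, h8, h9⟩ := (rch_y k _ k' S h4.bl hk1).1 _ h6
    simp only at h8 h9
    subst h8
    obtain ⟨h10, h11⟩ := ih (fun p hp' => hp p (List.mem_cons_of_mem _ hp')) _ _ _ h9 ht ha
    refine ⟨rfl, fun p hp' => ?_⟩
    rcases List.mem_cons.1 hp' with rfl | hp'
    · have e1 : 1 + j = j + 1 := by omega
      have e2 : k' = k + 1 := by omega
      rw [e1, e2] at hmem
      exact hmem
    · exact h11 p hp'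

theorem tst_complete {S : List (ℕ × ℕ)} (L : List (ℕ × ℕ)) :
    (∀ p ∈ L, 1 ≤ p.1 ∧ p.1 ≤ m ∧ 1 ≤ p.2) → (∀ p ∈ L, p ∈ S) → ∀ (T : Set (BS × BS)),
      GT S T → ∃ t, Rch m cv (tst L) (T, .ret 1) t ∧ t ∈ ((bm m).toNFA cv).accept := by
  induction L with
  | nil =>
    intro _ _ T _
    exact ⟨_, rfl, acc_ret.2 rfl⟩
  | cons p L ih =>
    obtain ⟨j, k⟩ := p
    intro hp hS T hG
    have hjk := hp (j, k) (by simp)
    simp only at hjk
    obtain ⟨j, rfl⟩ : ∃ j', j = j' + 1 := ⟨j - 1, by omega⟩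
    obtain ⟨k, rfl⟩ : ∃ k', k = k' + 1 := ⟨k - 1, by omega⟩
    obtain ⟨h1, h2⟩ := rch_x (m := m) (cv := cv) j _ 1 S hG.bl
    obtain ⟨⟨T2, q2⟩, hr2⟩ := h2 (by omega)
    obtain ⟨h3, h4⟩ := h1 _ hr2
    simp only at h3 h4
    subst h3
    have hk' : (BS.lft (1 + j), BS.ret (k + 1)) ∈ T2 := by
      rw [h4.2 _ _ (by omega)]
      have e1 : 1 + j = j + 1 := by omega
      rw [e1]
      exact hS _ (by simp)
    obtain ⟨h5, h6⟩ := rch_y (m := m) (cv := cv) k (bl m cv T2) (k + 1) S h4.bl (by omega)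
    obtain ⟨⟨T7, q7⟩, hr7⟩ := h6 (by omega)
    obtain ⟨_, h8, h9⟩ := h5 _ hr7
    simp only at h8 h9
    subst h8
    obtain ⟨t, ht, ha⟩ := ih (fun p hp' => hp p (List.mem_cons_of_mem _ hp'))
      (fun p hp' => hS p (List.mem_cons_of_mem _ hp')) T7 h9
    have e : k + 1 - k = 1 := by omega
    rw [e] at hr7
    refine ⟨t, ?_, ha⟩
    rw [tst, List.replicate_succ, List.cons_append]
    refine ⟨_, step_ret_x.2 ⟨rfl, rfl⟩, ?_⟩
    rw [rch_append]
    refine ⟨_, hr2, ?_⟩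
    rw [List.replicate_succ, List.cons_append]
    refine ⟨_, (step_cnt_y h4.1).2 ⟨k + 1, hk', rfl⟩, ?_⟩
    rw [rch_append]
    exact ⟨_, hr7, ht⟩

/-- the witness words that are accepted -/
theorem mem_lang (L : List (List (ℕ × ℕ))) (hL : ∀ S ∈ L, Adm m S) (p : ℕ × ℕ)
    (P : List (ℕ × ℕ)) (hP : Adm m (p :: P)) :
    (pre L ++ [.s]) ++ tst (p :: P) ∈ (bm m).lang cv ↔ ∃ S ∈ L, ∀ q ∈ p :: P, q ∈ S := by
  obtain ⟨h1, -, h3⟩ := pre_spec (m := m) (cv := cv) L hL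
  obtain ⟨j, k⟩ := p
  have hp := hP (j, k) (by simp)
  simp only at hp
  obtain ⟨j, rfl⟩ : ∃ j', j = j' + 1 := ⟨j - 1, by omega⟩
  rw [← (bm m).toNFA_accepts cv, NFA.mem_accepts]
  have hstart : ((bm m).toNFA cv).start = {((bm m).T0 cv, BS.scan)} := rfl
  constructor
  · rintro ⟨t, ha, ht⟩
    rw [mem_evalFrom, hstart] at ht
    obtain ⟨s, hs, ht⟩ := ht
    rw [Set.mem_singleton_iff] at hs
    subst hs
    rw [rch_append, ] at ht
    obtain ⟨u, hu, ht⟩ := ht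
    rw [rch_append] at hu
    obtain ⟨⟨T, q⟩, hq, u', hu', hu''⟩ := hu
    have hu3 : u = u' := hu''
    subst hu3
    rw [tst, List.replicate_succ, List.cons_append] at ht
    obtain ⟨v, hv, ht⟩ := ht
    rcases h1 _ hq with ⟨hq1, _⟩ | ⟨hq1, S, hS, hG⟩
    · simp only at hq1
      subst hq1
      rw [step_scan_s] at hu'
      rcases hu' with rfl | rfl
      · exact absurd hv step_scan_x
      · exact absurd hv step_mark_x
    · simp only at hq1 hG
      have hu4 : u = (bl m cv T, .mid) := by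
        rcases hq1 with rfl | rfl
        · exact step_mark_s.1 hu'
        · exact (step_mid (Or.inr (Or.inr rfl))).1 hu'
      subst hu4
      rw [step_mid_x] at hv
      subst hv
      refine ⟨S, hS, ?_⟩
      refine (tst_sound (m := m) (cv := cv) (fun p hp => (hL S hS p hp).2.2.1)
        ((j + 1, k) :: P) (fun p hp => ⟨(hP p hp).1, (hP p hp).2.2.1⟩) 1 (bl m cv T) t hG.bl
        ?_ ha).2
      rw [tst, List.replicate_succ, List.cons_append]
      exact ⟨_, step_ret_x.2 ⟨rfl, rfl⟩, ht⟩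
  · rintro ⟨S, hS, hall⟩
    obtain ⟨⟨T, q⟩, hr, hq, hG⟩ := h3 S hS
    simp only at hq hG
    obtain ⟨t, ht, ha⟩ := tst_complete (m := m) (cv := cv) (S := S) ((j + 1, k) :: P)
      (fun p hp => ⟨(hP p hp).1, (hP p hp).2.1, (hP p hp).2.2.1⟩) hall (bl m cv T) hG.bl
    refine ⟨t, ha, ?_⟩
    rw [mem_evalFrom, hstart]
    refine ⟨_, rfl, ?_⟩
    rw [rch_append]
    refine ⟨(bl m cv T, .mid), ?_, ?_⟩
    · rw [rch_append]
      refine ⟨_, hr, (bl m cv T, .mid), ?_, rfl⟩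
      rcases hq with rfl | rfl
      · exact step_mark_s.2 rfl
      · exact (step_mid (Or.inr (Or.inr rfl))).2 rfl
    · rw [tst, List.replicate_succ, List.cons_append] at ht ⊢
      obtain ⟨v, hv, ht⟩ := ht
      rw [step_ret_x] at hv
      obtain ⟨_, rfl⟩ := hv
      exact ⟨_, step_mid_x.2 rfl, ht⟩

end Pool.Agent.P0036f5v3
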