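import Pool.Agent.Lib.P0036f5v2.Lower

/-!
# A small 1-limited automaton with `2 ^ (2 ^ (m ^ 2))` residuals

The machine keeps one block of the prefix (a list of pairs `b^k a^j`) and checks the tests `x^j y^k`
of the suffix against it.
-/

set_option autoImplicit false

namespace Pool.Agent.P0036f5v3

open Relation Pool.Agent.P0036f5v2

/-- input letters -/
inductive BL : Type
  | a
  | b
  | s
  | x
  | y

/-- states -/
inductive BS : Type
  | scan
  | mark
  | mid
  | acc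
  | cnt (j : ℕ)
  | lft (j : ℕ)
  | skp (j : ℕ)
  | dn (i : ℕ)
  | up (k : ℕ)
  | ret (k : ℕ)

/-- first choice -/
def tr1 (m : ℕ) : BS → Sym BL Unit → Option (BS × (BL ⊕ Unit) × Bool)
  | .scan, .inp .a => some (.scan, .inr (), true)
  | .scan, .inp .b => some (.scan, .inr (), true)
  | .scan, .inp .s => some (.scan, .inr (), true)
  | .mark, .inp .a => some (.mark, .inl .a, true)
  | .mark, .inp .b => some (.mark, .inl .b, true)
  | .mark, .inp .s => some (.mid, .inr (), true)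
  | .mid, .inp .a => some (.mid, .inr (), true)
  | .mid, .inp .b => some (.mid, .inr (), true)
  | .mid, .inp .s => some (.mid, .inr (), true)
  | .mid, .inp .x => some (.cnt 1, .inr (), true)
  | .cnt j, .inp .x => if j < m then some (.cnt (j + 1), .inr (), true) else none
  | .cnt j, .inp .y => some (.lft j, .inr (), false)
  | .lft j, .wrk _ => some (.lft j, .inr (), false)
  | .lft j, .inp .b => some (.lft j, .inl .b, false)
  | .lft j, .inp .a => some (.dn (j - 1), .inl .a, false)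
  | .skp j, .inp .a => some (.skp j, .inl .a, false)
  | .skp j, .inp .b => some (.lft j, .inl .b, false)
  | .dn i, .inp .a => if i = 0 then none else some (.dn (i - 1), .inl .a, false)
  | .dn i, .inp .b => if i = 0 then some (.up 1, .inl .b, false) else none
  | .up k, .inp .b => if k < 2 * m then some (.up (k + 1), .inl .b, false) else none
  | .up k, .inp .a => some (.ret k, .inl .a, true)
  | .up k, .wrk _ => some (.ret k, .inr (), true)
  | .ret k, .wrk _ => some (.ret k, .inr (), true)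
  | .ret k, .inp .a => some (.ret k, .inl .a, true)
  | .ret k, .inp .b => some (.ret k, .inl .b, true)
  | .ret k, .inp .y => if k ≤ 1 then none else some (.ret (k - 1), .inr (), true)
  | .ret k, .inp .x => if k = 1 then some (.cnt 1, .inr (), true) else none
  | .ret k, .rend => if k = 1 then some (.acc, .inr (), true) else none
  | _, _ => none

/-- second choice -/
def tr2 : BS → Sym BL Unit → Option (BS × (BL ⊕ Unit) × Bool)
  | .scan, .inp .s => some (.mark, .inr (), true)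
  | .lft j, .inp .a => some (.skp j, .inl .a, false)
  | _, _ => none

/-- the machine -/
@[reducible] def bm (m : ℕ) : Mach BL where
  Q := BS
  W := Unit
  δ := fun q s => {x | tr1 m q s = some x ∨ tr2 q s = some x}
  qI := .scan
  F := {.acc}

variable {m : ℕ} {cv : Bool}

/-- left-moving states -/
def IsL : BS → Prop
  | .lft _ => True
  | .skp _ => True
  | .dn _ => True
  | .up _ => True
  | _ => False

/-- the symbols left on the tape behind the head -/
def Frz (g : Sym BL Unit) : Prop := g = .wrk () ∨ g = .inp .a ∨ g = .inp .b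

/-- left excursions of left-moving states end in a return state -/
def Inv (T : Set (BS × BS)) : Prop := ∀ p r, IsL p → (p, r) ∈ T → ∃ k, r = .ret k

theorem isL_lft {j : ℕ} : IsL (.lft j) := trivial
theorem isL_skp {j : ℕ} : IsL (.skp j) := trivial
theorem isL_dn {j : ℕ} : IsL (.dn j) := trivial
theorem isL_up {j : ℕ} : IsL (.up j) := trivial

theorem mem_δ {q : BS} {g : Sym BL Unit} {t : BS × (BL ⊕ Unit) × Bool} :
    t ∈ (bm m).δ q g ↔ tr1 m q g = some t ∨ tr2 q g = some t := Iff.rfl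

theorem lm_isL {g : Sym BL Unit} (hg : Frz g) {p r : BS} (hp : IsL p)
    (h : (bm m).LM cv g p r) : IsL r := by
  obtain ⟨x, hx, _⟩ := h
  rw [mem_δ] at hx
  rcases hg with rfl | rfl | rfl <;> cases p <;>
    simp only [IsL, tr1, tr2] at hp hx <;>
    (try split_ifs at hx) <;> simp_all only [Option.some.injEq, Prod.mk.injEq, reduceCtorEq,
      or_false, and_false, and_true, or_self]
  all_goals (rcases hx with ⟨rfl, _⟩ | ⟨rfl, _⟩ <;> trivial)

theorem rm_ret {g : Sym BL Unit} (hg : Frz g) {p r : BS} (hp : IsL p)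
    (h : (bm m).RM cv g p r) : ∃ k, r = .ret k := by
  obtain ⟨x, hx, _⟩ := h
  rw [mem_δ] at hx
  rcases hg with rfl | rfl | rfl <;> cases p <;>
    simp only [IsL, tr1, tr2] at hp hx <;>
    (try split_ifs at hx) <;> simp_all only [Option.some.injEq, Prod.mk.injEq, reduceCtorEq,
      or_false, and_false, and_true, or_self]
  all_goals exact ⟨_, hx.1.symm⟩

theorem ret_lm {g : Sym BL Unit} (hg : Frz g) {k : ℕ} {r : BS} :
    ¬ (bm m).LM cv g (.ret k) r := by
  rintro ⟨x, hx, _⟩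
  rw [mem_δ] at hx
  rcases hg with rfl | rfl | rfl <;> simp [tr1, tr2] at hx

theorem ret_rm {g : Sym BL Unit} (hg : Frz g) {k : ℕ} {r : BS} :
    (bm m).RM cv g (.ret k) r ↔ r = .ret k := by
  constructor
  · rintro ⟨x, hx, _⟩
    rw [mem_δ] at hx
    rcases hg with rfl | rfl | rfl <;>
      simp only [tr1, tr2, Option.some.injEq, Prod.mk.injEq, reduceCtorEq, or_false] at hx <;>
      exact hx.1.symm
  · rintro rfl
    rcases hg with rfl | rfl | rfl
    · exact ⟨.inr (), Or.inl rfl, fun _ _ _ => rfl⟩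
    · exact ⟨.inl .a, Or.inl rfl, fun _ _ _ => rfl⟩
    · exact ⟨.inl .b, Or.inl rfl, fun _ _ _ => rfl⟩

theorem upd_iff {T : Set (BS × BS)} (hT : Inv T) {g : Sym BL Unit} (hg : Frz g) {p r : BS}
    (hp : IsL p) : (p, r) ∈ (bm m).upd cv T g ↔
      (∃ p' k, (bm m).LM cv g p p' ∧ (p', BS.ret k) ∈ T ∧ r = .ret k) ∨ (bm m).RM cv g p r := by
  constructor
  · rintro ⟨r0, hch, hr⟩
    simp only at hch hr
    rcases hch.cases_head with h | ⟨c, ⟨p', hp', hc⟩, hch'⟩
    · subst h; exact Or.inr hr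
    · obtain ⟨k, rfl⟩ := hT p' c (lm_isL hg hp hp') hc
      rcases hch'.cases_head with h | ⟨c', ⟨p'', hp'', _⟩, _⟩
      · subst h
        exact Or.inl ⟨p', k, hp', hc, (ret_rm hg).1 hr⟩
      · exact absurd hp'' (ret_lm hg)
  · rintro (⟨p', k, h1, h2, rfl⟩ | h)
    · exact ⟨.ret k, ReflTransGen.single ⟨p', h1, h2⟩, (ret_rm hg).2 rfl⟩
    · exact ⟨p, ReflTransGen.refl, h⟩

theorem inv_upd {T : Set (BS × BS)} (hT : Inv T) {g : Sym BL Unit} (hg : Frz g) :
    Inv ((bm m).upd cv T g) := by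
  intro p r hp h
  rcases (upd_iff hT hg hp).1 h with ⟨_, k, _, _, h⟩ | h
  · exact ⟨k, h⟩
  · exact rm_ret hg hp h

theorem ret_upd {T : Set (BS × BS)} {g : Sym BL Unit} (hg : Frz g) {k : ℕ} {r : BS} :
    (BS.ret k, r) ∈ (bm m).upd cv T g ↔ r = .ret k := by
  constructor
  · rintro ⟨r0, hch, hr⟩
    simp only at hch hr
    rcases hch.cases_head with h | ⟨c', ⟨p'', hp'', _⟩, _⟩
    · subst h; exact (ret_rm hg).1 hr
    · exact absurd hp'' (ret_lm hg)
  · rintro rfl
    exact ⟨.ret k, ReflTransGen.refl, (ret_rm hg).2 rfl⟩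

/-! ### Explicit effect of one cell -/

section cell

variable {T : Set (BS × BS)} {j k i c : ℕ}

theorem blank_lft (hT : Inv T) :
    (BS.lft j, BS.ret k) ∈ (bm m).upd cv T (.wrk ()) ↔ (BS.lft j, BS.ret k) ∈ T := by
  rw [upd_iff hT (Or.inl rfl) isL_lft]
  constructor
  · rintro (⟨p', k', ⟨x, hx, _⟩, h2, h3⟩ | ⟨x, hx, _⟩)
    · rw [mem_δ] at hx
      simp only [tr1, tr2, Option.some.injEq, Prod.mk.injEq, reduceCtorEq, or_false,
        and_true] at hx
      obtain ⟨rfl, _⟩ := hx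
      rw [h3]; exact h2
    · rw [mem_δ] at hx
      simp [tr1, tr2] at hx
  · intro h
    exact Or.inl ⟨.lft j, k, ⟨.inr (), Or.inl rfl, fun _ _ _ => rfl⟩, h, rfl⟩

theorem blank_up (hT : Inv T) :
    (BS.up c, BS.ret k) ∈ (bm m).upd cv T (.wrk ()) ↔ k = c := by
  rw [upd_iff hT (Or.inl rfl) isL_up]
  constructor
  · rintro (⟨p', k', ⟨x, hx, _⟩, h2, h3⟩ | ⟨x, hx, _⟩)
    · rw [mem_δ] at hx
      simp [tr1, tr2] at hx
    · rw [mem_δ] at hx
      simp only [tr1, tr2, Option.some.injEq, Prod.mk.injEq, reduceCtorEq, or_false,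
        and_true, BS.ret.injEq] at hx
      exact hx.1.symm
  · rintro rfl
    exact Or.inr ⟨.inr (), Or.inl rfl, fun _ _ _ => rfl⟩

theorem a_up (hT : Inv T) :
    (BS.up c, BS.ret k) ∈ (bm m).upd cv T (.inp .a) ↔ k = c := by
  rw [upd_iff hT (Or.inr (Or.inl rfl)) isL_up]
  constructor
  · rintro (⟨p', k', ⟨x, hx, _⟩, h2, h3⟩ | ⟨x, hx, _⟩)
    · rw [mem_δ] at hx
      simp [tr1, tr2] at hx
    · rw [mem_δ] at hx
      simp only [tr1, tr2, Option.some.injEq, Prod.mk.injEq, reduceCtorEq, or_false,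
        and_true, BS.ret.injEq] at hx
      exact hx.1.symm
  · rintro rfl
    exact Or.inr ⟨.inl .a, Or.inl rfl, fun _ _ _ => rfl⟩

theorem a_lft (hT : Inv T) :
    (BS.lft j, BS.ret k) ∈ (bm m).upd cv T (.inp .a) ↔
      (BS.dn (j - 1), BS.ret k) ∈ T ∨ (BS.skp j, BS.ret k) ∈ T := by
  rw [upd_iff hT (Or.inr (Or.inl rfl)) isL_lft]
  constructor
  · rintro (⟨p', k', ⟨x, hx, _⟩, h2, h3⟩ | ⟨x, hx, _⟩)
    · rw [mem_δ] at hx
      simp only [tr1, tr2, Option.some.injEq, Prod.mk.injEq, and_true] at hx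
      rw [h3]
      rcases hx with ⟨rfl, _⟩ | ⟨rfl, _⟩
      · exact Or.inl h2
      · exact Or.inr h2
    · rw [mem_δ] at hx
      simp [tr1, tr2] at hx
  · rintro (h | h)
    · exact Or.inl ⟨.dn (j - 1), k, ⟨.inl .a, Or.inl rfl, fun _ _ _ => rfl⟩, h, rfl⟩
    · exact Or.inl ⟨.skp j, k, ⟨.inl .a, Or.inr rfl, fun _ _ _ => rfl⟩, h, rfl⟩

theorem a_skp (hT : Inv T) :
    (BS.skp j, BS.ret k) ∈ (bm m).upd cv T (.inp .a) ↔ (BS.skp j, BS.ret k) ∈ T := by
  rw [upd_iff hT (Or.inr (Or.inl rfl)) isL_skp]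
  constructor
  · rintro (⟨p', k', ⟨x, hx, _⟩, h2, h3⟩ | ⟨x, hx, _⟩)
    · rw [mem_δ] at hx
      simp only [tr1, tr2, Option.some.injEq, Prod.mk.injEq, reduceCtorEq, or_false,
        and_true] at hx
      obtain ⟨rfl, _⟩ := hx
      rw [h3]; exact h2
    · rw [mem_δ] at hx
      simp [tr1, tr2] at hx
  · intro h
    exact Or.inl ⟨.skp j, k, ⟨.inl .a, Or.inl rfl, fun _ _ _ => rfl⟩, h, rfl⟩

theorem a_dn (hT : Inv T) :
    (BS.dn i, BS.ret k) ∈ (bm m).upd cv T (.inp .a) ↔ i ≠ 0 ∧ (BS.dn (i - 1), BS.ret k) ∈ T := by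
  rw [upd_iff hT (Or.inr (Or.inl rfl)) isL_dn]
  constructor
  · rintro (⟨p', k', ⟨x, hx, _⟩, h2, h3⟩ | ⟨x, hx, _⟩)
    · rw [mem_δ] at hx
      simp only [tr1, tr2, reduceCtorEq, or_false] at hx
      split_ifs at hx with h0
      simp only [Option.some.injEq, Prod.mk.injEq, and_true] at hx
      obtain ⟨rfl, _⟩ := hx
      rw [h3]; exact ⟨h0, h2⟩
    · rw [mem_δ] at hx
      simp only [tr1, tr2, reduceCtorEq, or_false] at hx
      split_ifs at hx with h0
      simp at hx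
  · rintro ⟨h0, h⟩
    exact Or.inl ⟨.dn (i - 1), k, ⟨.inl .a, Or.inl (by simp [tr1, h0]), fun _ _ _ => rfl⟩, h, rfl⟩

theorem b_lft (hT : Inv T) :
    (BS.lft j, BS.ret k) ∈ (bm m).upd cv T (.inp .b) ↔ (BS.lft j, BS.ret k) ∈ T := by
  rw [upd_iff hT (Or.inr (Or.inr rfl)) isL_lft]
  constructor
  · rintro (⟨p', k', ⟨x, hx, _⟩, h2, h3⟩ | ⟨x, hx, _⟩)
    · rw [mem_δ] at hx
      simp only [tr1, tr2, Option.some.injEq, Prod.mk.injEq, reduceCtorEq, or_false,
        and_true] at hx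
      obtain ⟨rfl, _⟩ := hx
      rw [h3]; exact h2
    · rw [mem_δ] at hx
      simp [tr1, tr2] at hx
  · intro h
    exact Or.inl ⟨.lft j, k, ⟨.inl .b, Or.inl rfl, fun _ _ _ => rfl⟩, h, rfl⟩

theorem b_skp (hT : Inv T) :
    (BS.skp j, BS.ret k) ∈ (bm m).upd cv T (.inp .b) ↔ (BS.lft j, BS.ret k) ∈ T := by
  rw [upd_iff hT (Or.inr (Or.inr rfl)) isL_skp]
  constructor
  · rintro (⟨p', k', ⟨x, hx, _⟩, h2, h3⟩ | ⟨x, hx, _⟩)
    · rw [mem_δ] at hx
      simp only [tr1, tr2, Option.some.injEq, Prod.mk.injEq, reduceCtorEq, or_false,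
        and_true] at hx
      obtain ⟨rfl, _⟩ := hx
      rw [h3]; exact h2
    · rw [mem_δ] at hx
      simp [tr1, tr2] at hx
  · intro h
    exact Or.inl ⟨.lft j, k, ⟨.inl .b, Or.inl rfl, fun _ _ _ => rfl⟩, h, rfl⟩

theorem b_dn (hT : Inv T) :
    (BS.dn i, BS.ret k) ∈ (bm m).upd cv T (.inp .b) ↔ i = 0 ∧ (BS.up 1, BS.ret k) ∈ T := by
  rw [upd_iff hT (Or.inr (Or.inr rfl)) isL_dn]
  constructor
  · rintro (⟨p', k', ⟨x, hx, _⟩, h2, h3⟩ | ⟨x, hx, _⟩)
    · rw [mem_δ] at hx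
      simp only [tr1, tr2, reduceCtorEq, or_false] at hx
      split_ifs at hx with h0
      simp only [Option.some.injEq, Prod.mk.injEq, and_true] at hx
      obtain ⟨rfl, _⟩ := hx
      rw [h3]; exact ⟨h0, h2⟩
    · rw [mem_δ] at hx
      simp only [tr1, tr2, reduceCtorEq, or_false] at hx
      split_ifs at hx with h0
      simp at hx
  · rintro ⟨rfl, h⟩
    exact Or.inl ⟨.up 1, k, ⟨.inl .b, Or.inl (by simp [tr1]), fun _ _ _ => rfl⟩, h, rfl⟩

theorem b_up (hT : Inv T) :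
    (BS.up c, BS.ret k) ∈ (bm m).upd cv T (.inp .b) ↔
      c < 2 * m ∧ (BS.up (c + 1), BS.ret k) ∈ T := by
  rw [upd_iff hT (Or.inr (Or.inr rfl)) isL_up]
  constructor
  · rintro (⟨p', k', ⟨x, hx, _⟩, h2, h3⟩ | ⟨x, hx, _⟩)
    · rw [mem_δ] at hx
      simp only [tr1, tr2, reduceCtorEq, or_false] at hx
      split_ifs at hx with h0
      simp only [Option.some.injEq, Prod.mk.injEq, and_true] at hx
      obtain ⟨rfl, _⟩ := hx
      rw [h3]; exact ⟨h0, h2⟩
    · rw [mem_δ] at hx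
      simp only [tr1, tr2, reduceCtorEq, or_false] at hx
      split_ifs at hx with h0
      simp at hx
  · rintro ⟨h0, h⟩
    exact Or.inl ⟨.up (c + 1), k, ⟨.inl .b, Or.inl (by simp [tr1, h0]), fun _ _ _ => rfl⟩, h, rfl⟩

end cell

/-- the table after the kept letters `w` -/
def kp (m : ℕ) (cv : Bool) (T : Set (BS × BS)) (w : List BL) : Set (BS × BS) :=
  (w.map Sym.inp).foldl ((bm m).upd cv) T

theorem kp_nil (T : Set (BS × BS)) : kp m cv T [] = T := rfl

theorem kp_append (T : Set (BS × BS)) (u v : List BL) :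
    kp m cv T (u ++ v) = kp m cv (kp m cv T u) v := by
  simp [kp, List.foldl_append]

theorem kp_snoc (T : Set (BS × BS)) (u : List BL) (g : BL) :
    kp m cv T (u ++ [g]) = (bm m).upd cv (kp m cv T u) (.inp g) := by
  simp [kp, List.foldl_append]

/-- the cell to the left stops the counting of `b` -/
def Stp (T : Set (BS × BS)) : Prop := ∀ c k, (BS.up c, BS.ret k) ∈ T ↔ k = c

theorem bRun {T : Set (BS × BS)} (hT : Inv T) (hS : Stp T) (n : ℕ) :
    Inv (kp m cv T (List.replicate n .b)) ∧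
    (∀ j k, (BS.lft j, BS.ret k) ∈ kp m cv T (List.replicate n .b) ↔ (BS.lft j, BS.ret k) ∈ T) ∧
    (∀ c k, (BS.up c, BS.ret k) ∈ kp m cv T (List.replicate n .b) ↔
      (n = 0 ∨ c + n ≤ 2 * m) ∧ k = c + n) := by
  induction n with
  | zero =>
    refine ⟨hT, fun j k => Iff.rfl, fun c k => ?_⟩
    simp [kp_nil, hS c k]
  | succ n ih =>
    obtain ⟨h1, h2, h3⟩ := ih
    rw [List.replicate_succ', kp_snoc]
    refine ⟨inv_upd h1 (Or.inr (Or.inr rfl)), fun j k => ?_, fun c k => ?_⟩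
    · rw [b_lft h1, h2]
    · rw [b_up h1, h3]
      constructor
      · rintro ⟨h4, h5, h6⟩; omega
      · rintro ⟨h4, h5⟩; omega

/-- a run of `b` and a run of `a` -/
theorem item {T : Set (BS × BS)} (hT : Inv T) (hS : Stp T) (n l : ℕ) (hn : 1 ≤ n)
    (hn2 : n ≤ 2 * m) :
    let T' := kp m cv T (List.replicate n .b ++ List.replicate l .a)
    Inv T' ∧ (∀ j k, (BS.skp j, BS.ret k) ∈ T' ↔ (BS.lft j, BS.ret k) ∈ T) ∧
      (∀ i k, (BS.dn i, BS.ret k) ∈ T' ↔ i = l ∧ k = n) ∧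
      (1 ≤ l → Stp T' ∧ ∀ j k, 1 ≤ j → ((BS.lft j, BS.ret k) ∈ T' ↔
        (j = l ∧ k = n) ∨ (BS.lft j, BS.ret k) ∈ T)) := by
  intro T'
  induction l with
  | zero =>
    obtain ⟨n, rfl⟩ : ∃ n', n = n' + 1 := ⟨n - 1, by omega⟩
    obtain ⟨h1, h2, h3⟩ := bRun (m := m) (cv := cv) hT hS n
    have e : T' = (bm m).upd cv (kp m cv T (List.replicate n .b)) (.inp .b) := by
      show kp m cv T _ = _
      rw [List.replicate_zero, List.append_nil, List.replicate_succ', kp_snoc]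
    rw [e]
    refine ⟨inv_upd h1 (Or.inr (Or.inr rfl)), fun j k => ?_, fun i k => ?_, fun h => by omega⟩
    · rw [b_skp h1, h2]
    · rw [b_dn h1, h3]
      constructor
      · rintro ⟨h4, h5, h6⟩; omega
      · rintro ⟨h4, h5⟩; omega
  | succ l ih =>
    obtain ⟨h1, h2, h3, h4⟩ := ih
    have e : T' = (bm m).upd cv (kp m cv T (List.replicate n .b ++ List.replicate l .a))
        (.inp .a) := by
      show kp m cv T _ = _
      rw [List.replicate_succ', ← List.append_assoc, kp_snoc]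
    rw [e]
    refine ⟨inv_upd h1 (Or.inr (Or.inl rfl)), fun j k => ?_, fun i k => ?_, fun _ => ⟨?_, ?_⟩⟩
    · rw [a_skp h1, h2]
    · rw [a_dn h1, h3]
      constructor
      · rintro ⟨h5, h6, h7⟩; omega
      · rintro ⟨h5, h6⟩; omega
    · intro c k
      exact a_up h1
    · intro j k hj
      rw [a_lft h1, h3, h2]
      constructor
      · rintro (⟨h5, h6⟩ | h)
        · left; omega
        · right; exact h
      · rintro (⟨h5, h6⟩ | h)
        · left; omega
        · right; exact h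

/-- the word of a list of pairs -/
def enc : List (ℕ × ℕ) → List BL
  | [] => []
  | (j, k) :: L => List.replicate k .b ++ List.replicate j .a ++ enc L

/-- admissible pairs -/
def Adm (m : ℕ) (L : List (ℕ × ℕ)) : Prop := ∀ t ∈ L, 1 ≤ t.1 ∧ t.1 ≤ m ∧ 1 ≤ t.2 ∧ t.2 ≤ 2 * m

theorem kp_enc (L : List (ℕ × ℕ)) : ∀ {T : Set (BS × BS)}, Inv T → Stp T → Adm m L →
    Inv (kp m cv T (enc L)) ∧ ∀ j k, 1 ≤ j → ((BS.lft j, BS.ret k) ∈ kp m cv T (enc L) ↔
      (j, k) ∈ L ∨ (BS.lft j, BS.ret k) ∈ T) := by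
  induction L with
  | nil =>
    intro T hT _ _
    exact ⟨hT, fun j k _ => by simp [enc, kp_nil]⟩
  | cons t L ih =>
    obtain ⟨l, n⟩ := t
    intro T hT hS hA
    have ht := hA (l, n) (by simp)
    simp only at ht
    obtain ⟨h1, h2, h3, h4⟩ := item (m := m) (cv := cv) hT hS n l ht.2.2.1 ht.2.2.2
    obtain ⟨h5, h6⟩ := h4 ht.1
    obtain ⟨h7, h8⟩ := ih h1 h5 (fun t ht => hA t (List.mem_cons_of_mem _ ht))
    have e : kp m cv T (enc ((l, n) :: L)) =
        kp m cv (kp m cv T (List.replicate n .b ++ List.replicate l .a)) (enc L) := by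
      rw [← kp_append]; rfl
    rw [e]
    refine ⟨h7, fun j k hj => ?_⟩
    rw [h8 j k hj, h6 j k hj]
    simp only [List.mem_cons, Prod.mk.injEq]
    tauto

end Pool.Agent.P0036f5v3
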